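import Pool.Agent.H6.N4D.TB

/-!
# Theorem (G), section 3a: bundles over a stretch, definitions

A bundle has over every point `t` a finite set `F t` of sheets `j`, with the frequency `θ t j` and
the phase `φ t j`.
-/

set_option autoImplicit false

open Finset Pool.Agent.H6.N4D

namespace Pool.Agent.H78.GS

/-! ## relations between finite sets -/

/-- the relation `R` matches `A` and `A'` -/
def Mat (R : ℕ → ℕ → Prop) (A A' : Finset ℕ) : Prop :=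
  (∀ j ∈ A, ∃ i ∈ A', R j i) ∧ ∀ i ∈ A', ∃ j ∈ A, R j i

/-- the relation `R` is a bijection between `A` and `A'` -/
def Bij (R : ℕ → ℕ → Prop) (A A' : Finset ℕ) : Prop :=
  (∀ j ∈ A, ∃! i, i ∈ A' ∧ R j i) ∧ ∀ i ∈ A', ∃! j, j ∈ A ∧ R j i

/-- the relation between a sheet over `t` and a sheet over `t + w` -/
def RS (S : Par) (e₀ : ℝ) (θ φ : ℤ → ℕ → ℝ) (w : ℕ) (t : ℤ) (j i : ℕ) : Prop :=
  nd (θ (t + w) i - θ t j) ≤ e₀ / (S.rho * S.x t) ∧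
    nd (φ (t + w) i - (φ t j + θ t j * ((S.n (t + w) : ℝ) - S.n t))) ≤ e₀

/-- the relation between a sheet over `t` and a sheet over `t - l p` -/
def RE (S : Par) (e₀ : ℝ) (θ φ : ℤ → ℕ → ℝ) (p : ℕ) (t : ℤ) (j i : ℕ) : Prop :=
  nd (θ (t - S.l p) i - p * θ t j) ≤ p * e₀ / (S.rho * S.x t) ∧
    nd (φ (t - S.l p) i -
      (φ t j + θ t j * (p * (S.n (t - S.l p) : ℝ) - S.n t) + 1 / 2)) ≤ e₀

/-- the relations of section 3b -/
structure Bnd (S : Par) (ε e₀ c₀ : ℝ) (r₀ : ℕ) (F : ℤ → Finset ℕ) (θ φ : ℤ → ℕ → ℝ) :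
    Prop where
  sub : ∀ t, F t ⊆ range r₀
  ne : S.cnt (fun t => F t = ∅) ≤ (1 - c₀) * S.N
  sep : ∀ t ∈ S.I, ∀ i ∈ F t, ∀ j ∈ F t, i ≠ j → 1 / (S.rho * S.x t) ≤ nd (θ t i - θ t j)
  shf : ∀ w : ℕ, (w : ℝ) * S.h ≤ S.rho / 4 →
    S.cnt (fun t => t + (w : ℤ) ∈ S.I ∧ ¬ Mat (RS S e₀ θ φ w t) (F t) (F (t + w))) ≤ ε * S.N
  edg : ∑ p ∈ S.Q, 1 / (p : ℝ) *
    S.cnt (fun t => t - S.l p ∈ S.I ∧ ¬ Mat (RE S e₀ θ φ p t) (F t) (F (t - S.l p))) ≤ ε * S.N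

/-! ## inner stretches -/

/-- the stretch without `m` points at both ends -/
def cut (S : Par) (m : ℤ) : Par := { S with a := S.a + m, b := S.b - m }

/-! ## invariant bundles and functions, for arbitrary relations -/

/-- the bundle `F` is invariant up to `e` -/
structure Inv (S : Par) (RP RW : ℕ → ℤ → ℕ → ℕ → Prop) (e : ℝ) (F : ℤ → Finset ℕ) : Prop where
  pr : ∑ p ∈ S.Q, 1 / (p : ℝ) *
    S.cnt (fun t => t - S.l p ∈ S.I ∧ ¬ Bij (RP p t) (F t) (F (t - S.l p))) ≤ e * S.N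
  sh : ∀ w : ℕ, 1 ≤ w → w ≤ S.V →
    S.cnt (fun t => t + (w : ℤ) ∈ S.I ∧ ¬ Bij (RW w t) (F t) (F (t + w))) ≤ e * S.N

/-- the function `G` on the bundle is invariant up to `e` -/
structure AI (S : Par) (RP RW : ℕ → ℤ → ℕ → ℕ → Prop) (e : ℝ) (F : ℤ → Finset ℕ)
    (G : ℤ → ℕ → ℝ) : Prop where
  pr : ∑ p ∈ S.Q, 1 / (p : ℝ) *
    S.cnt (fun t => t - S.l p ∈ S.I ∧ ∃ j ∈ F t, ∃ i ∈ F (t - S.l p),
      RP p t j i ∧ e < |G (t - S.l p) i - G t j|) ≤ e * S.N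
  sh : ∀ w : ℕ, 1 ≤ w → w ≤ S.V →
    S.cnt (fun t => t + (w : ℤ) ∈ S.I ∧ ∃ j ∈ F t, ∃ i ∈ F (t + w),
      RW w t j i ∧ e < |G (t + w) i - G t j|) ≤ e * S.N

/-- the part of the bundle where `G` is at most `u` -/
noncomputable def sbl (F : ℤ → Finset ℕ) (G : ℤ → ℕ → ℝ) (u : ℝ) (t : ℤ) : Finset ℕ :=
  (F t).filter (fun j => G t j ≤ u)

/-- the bundle `F` has over almost all points `s` sheets -/
def Rk (S : Par) (κ : ℝ) (F : ℤ → Finset ℕ) (s : ℕ) : Prop :=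
  S.cnt (fun t => (F t).card ≠ s) ≤ κ * S.N

/-- no part of the bundle has a smaller positive number of sheets -/
def Mnl (S : Par) (RP RW : ℕ → ℤ → ℕ → ℕ → Prop) (e κ : ℝ) (F : ℤ → Finset ℕ) (s : ℕ) : Prop :=
  ∀ (s' : ℕ) (F' : ℤ → Finset ℕ), 1 ≤ s' → s' < s → (∀ t, F' t ⊆ F t) → Inv S RP RW e F' →
    ¬ Rk S κ F' s'

/-! ## displacements -/

/-- the distance, in the unit `e₁ / (rho x)`, of the sheet `i` over `t + D` to the sheet `j` over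
`t`, displaced by `c / x t` -/
noncomputable def ds (S : Par) (e₁ : ℝ) (θ : ℤ → ℕ → ℝ) (D : ℕ) (c : ℝ) (t : ℤ) (j i : ℕ) : ℝ :=
  S.rho * S.x t / e₁ * nd (θ (t + D) i - θ t j - c / S.x t)

/-- the smallest of these distances, clipped at one -/
noncomputable def Gd (S : Par) (e₁ : ℝ) (θ : ℤ → ℕ → ℝ) (F : ℤ → Finset ℕ) (D : ℕ) (c : ℝ)
    (t : ℤ) (j : ℕ) : ℝ := (F (t + D)).fold min 1 (fun i => ds S e₁ θ D c t j i)

/-- almost all sheets have a displaced sheet -/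
def Hit (S : Par) (e₁ κ ν : ℝ) (θ : ℤ → ℕ → ℝ) (F : ℤ → Finset ℕ) (D : ℕ) (c : ℝ) : Prop :=
  S.cnt (fun t => ∃ j ∈ F t, ∀ i ∈ F (t + D), ν < ds S e₁ θ D c t j i) ≤ κ * S.N

/-- almost no sheet has a displaced sheet -/
def Mis (S : Par) (e₁ κ ν : ℝ) (θ : ℤ → ℕ → ℝ) (F : ℤ → Finset ℕ) (D : ℕ) (c : ℝ) : Prop :=
  S.cnt (fun t => ∃ j ∈ F t, ∃ i ∈ F (t + D), ds S e₁ θ D c t j i ≤ ν) ≤ κ * S.N

/-- up to the distance `N` the displacements are those of `T / x` -/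
def HT (S : Par) (e₁ κ ν : ℝ) (θ : ℤ → ℕ → ℝ) (F : ℤ → Finset ℕ) (T : ℝ) (N : ℕ) : Prop :=
  ∀ D : ℕ, D ≤ N → Hit S e₁ κ ν θ F D (T * (Real.exp (-(S.h * D)) - 1))

/-- the frequency without `T / x` -/
noncomputable def fh (S : Par) (θ : ℤ → ℕ → ℝ) (T : ℝ) (t : ℤ) (j : ℕ) : ℝ := θ t j - T / S.x t

/-! ## the final functions -/

open Classical in
/-- the sum of the phases of the sheets at the fraction `a / b` -/
noncomputable def FA (S : Par) (θ φ : ℤ → ℕ → ℝ) (F : ℤ → Finset ℕ) (T : ℝ) (b a : ℕ) (t : ℤ) :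
    ℂ :=
  ∑ j ∈ (F t).filter (fun j => nd (fh S θ T t j - (a : ℝ) / b) ≤ 1 / (4 * (S.rho * S.x t))),
    ee (φ t j - (a : ℝ) / b * S.n t - T * Real.log (S.n t) + T * (S.h * t))

/-- the twist by a character modulo `b` of the sheets at the fractions with the denominator `b` -/
noncomputable def HC (S : Par) (θ φ : ℤ → ℕ → ℝ) (F : ℤ → Finset ℕ) (T : ℝ) (b : ℕ)
    (χ : DirichletCharacter ℂ b) (t : ℤ) : ℂ :=
  ∑ a ∈ range b, χ (a : ZMod b) * FA S θ φ F T b a t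

/-- a sheet over `t` lies at the fraction `a / b` -/
def At (S : Par) (e₁ ν : ℝ) (θ : ℤ → ℕ → ℝ) (T : ℝ) (b a : ℕ) (t : ℤ) (j : ℕ) : Prop :=
  nd (fh S θ T t j - (a : ℝ) / b) ≤ ν * e₁ / (S.rho * S.x t)

end Pool.Agent.H78.GS
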