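import Pool.Agent.H75.GS.Targets

/-!
# The base of the induction: a formula is sensitive to few rows
-/

set_option autoImplicit false

namespace Pool.Agent.H78.GS

open Finset Filter Pool.Agent.H6.NB Pool.Agent.H70.OQ Pool.Agent.H75.GS

section

variable {X Z : Type} [Fintype X] [DecidableEq X] [Fintype Z] [DecidableEq Z]

omit [Fintype X] [DecidableEq X] [Fintype Z] in
lemma bsc_cl (S t d : ℕ) (hC : T_CLG) (f : (X × Z → Bool) → Bool) (hf : Fm S t d f) (h : X → Z) :
    Cl X (S + 2 ^ t) (d + 1 + 1) fun b => f (tb h b) := by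
  have h1 := hC (X × Z) X S t d (S + 2 ^ t) 0 f (fun v y => tb h y v) (Nat.le_add_right _ _)
    (Nat.le_add_left _ _) ?_ hf
  · have h2 : 0 + d + 2 = d + 1 + 1 := by omega
    rw [h2] at h1
    exact h1
  · intro v
    by_cases hv : v.2 = h v.1
    · right
      exact ⟨v.1, fun y => by simp [tb, hv]⟩
    · left
      exact ⟨false, fun y => by simp [tb, hv]⟩

omit [Fintype Z] in
lemma bsc_sub (f : (X × Z → Bool) → Bool) (h : X → Z) (b : X → Bool) :
    (univ.filter fun x => f (tU (h, b) x) ≠ f (tT (h, b))) ⊆
      univ.filter fun x => f (tb h (flp b x)) ≠ f (tb h b) := by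
  intro x hx
  rw [mem_filter] at hx ⊢
  refine ⟨mem_univ _, ?_⟩
  have h1 := hx.2
  unfold tU tT at h1
  cases hb : b x with
  | true =>
    exfalso
    refine h1 ?_
    congr 1
    funext v
    unfold tb
    by_cases hv : v.1 = x
    · simp [hv, hb]
    · simp [hv]
  | false =>
    have h2 : (fun x' => b x' || decide (x' = x)) = flp b x := by
      funext x'
      unfold flp
      by_cases hv : x' = x
      · subst hv
        simp [hb]
      · simp [hv]
    rw [← h2]
    exact h1

end

theorem bsc (hC : T_CLG) (hU : T_CUB) : T_BSC := by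
  intro X Z _ _ _ _ S t d w r k k' hw hk hK f hf
  have key : ∀ h : X → Z, ((univ.filter fun b : X → Bool =>
      k' < (univ.filter fun x => f (tU (h, b) x) ≠ f (tT (h, b))).card).card : ℝ) ≤
      2 / qw w ^ (d + 2) * (2 ^ Fintype.card X * (((Fintype.card X : ℝ) + 1) *
        ((S : ℝ) + 2 ^ t + 1) ^ (d + 2) * 2 / 2 ^ w + 1 / 4 ^ r)) := by
    intro h
    have h1 := hU X (d + 1) (S + 2 ^ t) w r k k' (fun b => f (tb h b)) (fun _ b => f (tb h b))
      (bsc_cl S t d hC f hf h) (fun _ => bsc_cl S t d hC f hf h) hw hk hK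
    have h2 : (univ.filter fun z : X → Bool => k < (univ.filter fun _x : X =>
        f (tb h z) ≠ f (tb h z)).card).card = 0 := by
      rw [card_eq_zero, filter_eq_empty_iff]
      intro z _
      simp
    beta_reduce at h1
    rw [h2] at h1
    have h3 : ((univ.filter fun b : X → Bool =>
        k' < (univ.filter fun x => f (tU (h, b) x) ≠ f (tT (h, b))).card).card : ℝ) ≤
        ((univ.filter fun z : X → Bool => k' < (univ.filter fun x =>
          f (tb h (flp z x)) ≠ f (tb h z)).card).card : ℝ) := by
      have h4 : (univ.filter fun b : X → Bool =>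
          k' < (univ.filter fun x => f (tU (h, b) x) ≠ f (tT (h, b))).card) ⊆
          univ.filter fun z : X → Bool => k' < (univ.filter fun x =>
            f (tb h (flp z x)) ≠ f (tb h z)).card := by
        intro b hb
        rw [mem_filter] at hb ⊢
        exact ⟨mem_univ _, lt_of_lt_of_le hb.2 (card_le_card (bsc_sub f h b))⟩
      exact_mod_cast card_le_card h4
    refine h3.trans (h1.trans (le_of_eq ?_))
    push_cast
    ring
  have h5 : ((univ.filter fun p : (X → Z) × (X → Bool) =>
      k' < (univ.filter fun x => f (tU p x) ≠ f (tT p)).card).card : ℝ) =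
      ∑ h : X → Z, ((univ.filter fun b : X → Bool =>
        k' < (univ.filter fun x => f (tU (h, b) x) ≠ f (tT (h, b))).card).card : ℝ) := by
    rw [card_filter, Fintype.sum_prod_type]
    push_cast
    refine sum_congr rfl fun h _ => ?_
    rw [card_filter]
    push_cast
    rfl
  rw [h5]
  refine (sum_le_sum fun h _ => key h).trans (le_of_eq ?_)
  rw [sum_const, nsmul_eq_mul, Fintype.card_prod, card_univ]
  have h6 : Fintype.card (X → Bool) = 2 ^ Fintype.card X := by simp
  rw [h6]
  push_cast
  ring

end Pool.Agent.H78.GS
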