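import Pool.Agent.H78.GS.TA3

/-!
# Theorem (G), section 3a: restriction to inner stretches
-/

set_option autoImplicit false

open Finset Pool.Agent.H6.N4D

namespace Pool.Agent.H78.GS

theorem pf_RST (hCTP : T_CTP) : T_RST := by
  intro S m RP RW e κ F s hOk hm hlen he hκ
  obtain ⟨_, _, hN0, _, hN, hI, _, hcnt, _⟩ := hCTP S m hOk hm hlen
  have he2 : e * S.N ≤ 2 * e * (cut S m).N := by nlinarith [mul_nonneg he hN0]
  refine ⟨fun h => ⟨?_, ?_⟩, fun h => ?_⟩
  · refine le_trans ?_ (h.pr.trans he2)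
    apply sum_le_sum
    intro p _
    apply mul_le_mul_of_nonneg_left _ (by positivity)
    refine le_trans ?_ (hcnt _)
    apply Par.cnt_mono
    intro t _ ht
    exact ⟨hI ht.1, ht.2⟩
  · intro w hw1 hw2
    refine le_trans ?_ ((h.sh w hw1 hw2).trans he2)
    refine le_trans ?_ (hcnt _)
    apply Par.cnt_mono
    intro t _ ht
    exact ⟨hI ht.1, ht.2⟩
  · unfold Rk at h ⊢
    refine (hcnt _).trans (h.trans ?_)
    nlinarith [mul_nonneg hκ hN0]

end Pool.Agent.H78.GS
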