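import Pool.Agent.H6.N4D.All
import Pool.Agent.H78.GS.BUN
import Pool.Agent.H78.GS.TF3
import Pool.Agent.H30.GS3.CMP
import Pool.Agent.H30.GS3.GRD
import Pool.Agent.H13.GSA.ACTP
import Pool.Agent.H17.GSA.DIC
import Pool.Agent.H17.GSA.GDA
import Pool.Agent.H43.GS3.DSP
import Pool.Agent.H43.GS3.IND
import Pool.Agent.H85.GS3.GDP
import Pool.Agent.H85.GS3.UNI
import Pool.Agent.H5.GS3.AGDS
import Pool.Agent.H67.G3.MNS
import Pool.Agent.H80.GS3.PIB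
import Pool.Agent.H50.GS3.AQCO
import Pool.Agent.H51.GS3.ARNK
import Pool.Agent.H7.GS3.SBI
import Pool.Agent.H36.GS.STA
import Pool.Agent.H73.G3.ASTP
import Pool.Agent.H52.G3.AUNQ
import Pool.Agent.H78.GS.RST
import Pool.Agent.H10.G3.CTX
import Pool.Agent.H40.GS.AEXC
import Pool.Agent.H35.G3.FFAE
import Pool.Agent.H38.GS3.HCE
import Pool.Agent.H38.GS3.FAS
import Pool.Agent.H55.G3.LCE
import Pool.Agent.H63.G3.FLCS
import Pool.Agent.H63.G3.FPHS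
import Pool.Agent.H85.GS3.MAS
import Pool.Agent.H85.GS3.NUM
import Pool.Agent.H50.GS3.FPAR
import Pool.Agent.H80.GS3.PHE
import Pool.Agent.H51.GS3.FRAS
import Pool.Agent.H21.GS3.PRE
import Pool.Agent.H83.GS.All

/-!
# Theorem (G), section 3a: composition
-/

set_option autoImplicit false

namespace Pool.Agent.H78.GS.All

open Pool.Agent.H78.GS
open Pool.Agent.H6.N4D.All (tPI tTWO tSIZ tWTS tAVG tCHI)

theorem aCTP : T_CTP := Pool.Agent.H13.GSA.pf_CTP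
theorem aRNK : T_RNK := Pool.Agent.H51.GS3.pf_RNK tPI
theorem aSBI : T_SBI := Pool.Agent.H7.GS3.pf_SBI
theorem aDIC : T_DIC := Pool.Agent.H17.GSA.pf_DIC
theorem aCMP : T_CMP := Pool.Agent.H30.GS3.pf_CMP
theorem aGRD : T_GRD := Pool.Agent.H30.GS3.pf_GRD
theorem aUNQ : T_UNQ := Pool.Agent.H52.G3.pf_UNQ
theorem aQCO : T_QCO := Pool.Agent.H50.GS3.pf_QCO
theorem aSTP : Pool.Agent.H78.GS.T_STP := Pool.Agent.H73.G3.pf_STP aCMP aGRD aUNQ aQCO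
theorem aSTA : T_STA := Pool.Agent.H36.GS.pf_STA
theorem aIND : T_IND := Pool.Agent.H43.GS3.pf_IND aSTP tSIZ
theorem aGDS : T_GDS := Pool.Agent.H5.GS3.pf_GDS tSIZ aCTP
theorem aEXC : T_EXC := Pool.Agent.H40.GS.pf_EXC tTWO
theorem aCTX : T_CTX := Pool.Agent.H10.G3.pf_CTX
theorem aRST : T_RST := Pool.Agent.H78.GS.pf_RST aCTP
theorem aPIB : T_PIB := Pool.Agent.H80.GS3.pf_PIB aRNK aCTX aSBI tWTS
theorem aMNS : T_MNS := Pool.Agent.H67.G3.pf_MNS aRST aCTP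
theorem aUNI : T_UNI := Pool.Agent.H85.GS3.pf_UNI aEXC tSIZ
theorem aGDP : T_GDP := Pool.Agent.H85.GS3.pf_GDP aEXC tSIZ aCTP
theorem aGDA : T_GDA := Pool.Agent.H17.GSA.pf_GDA aGDP aGDS
theorem aDSP : T_DSP := Pool.Agent.H43.GS3.pf_DSP aPIB aGDA aDIC aSTA aIND aCTP aRST tSIZ
theorem aPRE : T_PRE := Pool.Agent.H21.GS3.pf_PRE Pool.Agent.H83.GS.gRAT tWTS tSIZ
theorem aRAS : T_RAS := Pool.Agent.H51.GS3.pf_RAS
theorem aPHE : T_PHE := Pool.Agent.H80.GS3.pf_PHE tSIZ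
theorem aPHS : T_PHS := Pool.Agent.H63.G3.pf_PHS tSIZ
theorem aLCE : T_LCE := Pool.Agent.H55.G3.pf_LCE tSIZ
theorem aLCS : T_LCS := Pool.Agent.H63.G3.pf_LCS tSIZ
theorem aFAE : T_FAE := Pool.Agent.H35.G3.pf_FAE aRAS aPHE aLCE tSIZ
theorem aFAS : T_FAS := Pool.Agent.H38.GS3.pf_FAS aRAS aPHS aLCS tSIZ
theorem aHCE : T_HCE := Pool.Agent.H38.GS3.pf_HCE
theorem aPAR : T_PAR := Pool.Agent.H50.GS3.pf_PAR
theorem aMAS : T_MAS := Pool.Agent.H85.GS3.pf_MAS aPAR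
theorem aNUM : T_NUM := Pool.Agent.H85.GS3.pf_NUM aFAE aFAS aHCE aMAS Pool.Agent.H83.GS.gFINX aCTP
  tSIZ tWTS

/-- there is no bundle with the relations -/
theorem aBUN : T_BUN := pf_BUN aRNK aUNI aMNS aDSP aPRE aNUM aCTP tSIZ

end Pool.Agent.H78.GS.All
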