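import Pool.Agent.H78.GS.TB3

/-!
# Theorem (G), section 3a: the choice of the minimal bundle, with a fixed sequence of errors
-/

set_option autoImplicit false

open Finset Pool.Agent.H6.N4D

namespace Pool.Agent.H78.GS

/-- MNS. A minimal invariant part of a bundle; `es` is the sequence of the errors. -/
def T_MNS : Prop := ∀ (r₀ : ℕ) (es : ℕ → ℝ) (S : Par) (Δ : ℤ) (κ : ℝ)
  (RP RW : ℕ → ℤ → ℕ → ℕ → Prop) (F₀ : ℤ → Finset ℕ) (s₀ : ℕ),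
    (∀ k, 0 < es k ∧ es (k + 1) ≤ es k / 2) → S.Ok → 0 ≤ Δ → 0 ≤ κ →
    12 * (S.K * S.L) ≤ S.N * S.h - 2 * (r₀ * Δ * S.h) → 1 ≤ s₀ → s₀ ≤ r₀ →
    Inv S RP RW (es r₀ / 2) F₀ → Rk S κ F₀ s₀ →
    ∃ (m : ℤ) (s : ℕ) (F : ℤ → Finset ℕ), 0 ≤ m ∧ m + Δ ≤ r₀ * Δ ∧ 1 ≤ s ∧ s ≤ r₀ ∧
      (∀ t, F t ⊆ F₀ t) ∧ Inv (cut S m) RP RW (es s) F ∧ Rk (cut S m) (2 * κ) F s ∧
      Mnl (cut S (m + Δ)) RP RW (es (s - 1)) κ F s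

end Pool.Agent.H78.GS
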